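import Mathlib

/-!
# Coefficients of polynomials that do not vanish at the squares of the positive integers
-/

set_option autoImplicit false

open Filter Polynomial Metric
open scoped Topology

namespace Pool.Agent.Y119.NW

/-- the functions `z ↦ (z - c)^m e_j(z)` extend analytically to `c` -/
def Ext {d : ℕ} (c : ℂ) (e : Fin d → ℂ → ℂ) (m : ℕ) : Prop :=
  ∀ j, ∃ g : ℂ → ℂ, AnalyticAt ℂ g c ∧ ∀ᶠ z in 𝓝[≠] c, (z - c) ^ m * e j z = g z

theorem step {d : ℕ} (c : ℂ) (e : Fin d → ℂ → ℂ) (m : ℕ) (h : Ext c e (m + 1))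
    (hom : ∀ᶠ z in 𝓝[≠] c, ∀ M : ℕ, 0 < M →
      ((M : ℂ) ^ 2) ^ d + ∑ j, e j z * ((M : ℂ) ^ 2) ^ (j : ℕ) ≠ 0) : Ext c e m := by
  classical
  choose g hg1 hg2 using h
  -- the values at `c` vanish
  have hzero : ∀ j, g j c = 0 := by
    by_contra hne
    push Not at hne
    obtain ⟨j₀, hj₀⟩ := hne
    -- a good radius
    have h1 : ∀ᶠ z in 𝓝 c, (∀ j, AnalyticAt ℂ (g j) z) ∧ (z ≠ c → (∀ j,
        (z - c) ^ (m + 1) * e j z = g j z) ∧ ∀ M : ℕ, 0 < M →
      ((M : ℂ) ^ 2) ^ d + ∑ j, e j z * ((M : ℂ) ^ 2) ^ (j : ℕ) ≠ 0) := by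
      have h2 := eventually_nhdsWithin_iff.1 ((eventually_all.2 hg2).and hom)
      have h3 : ∀ᶠ z in 𝓝 c, ∀ j, AnalyticAt ℂ (g j) z :=
        eventually_all.2 fun j => (hg1 j).eventually_analyticAt
      filter_upwards [h2, h3] with z hz1 hz2
      exact ⟨hz2, fun hz => hz1 hz⟩
    obtain ⟨r, hr, hball⟩ := Metric.nhds_basis_closedBall.mem_iff.1 h1
    have hball' : ∀ z ∈ closedBall c r, (∀ j, AnalyticAt ℂ (g j) z) ∧ (z ≠ c → (∀ j,
        (z - c) ^ (m + 1) * e j z = g j z) ∧ ∀ M : ℕ, 0 < M →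
      ((M : ℂ) ^ 2) ^ d + ∑ j, e j z * ((M : ℂ) ^ 2) ^ (j : ℕ) ≠ 0) := fun z hz => hball hz
    -- a bound
    have h4 : ∀ j, ∃ B : ℝ, ∀ z ∈ closedBall c r, ‖g j z‖ ≤ B := fun j =>
      (isCompact_closedBall c r).exists_bound_of_continuousOn
        fun z hz => ((hball' z hz).1 j).continuousAt.continuousWithinAt
    choose B hB using h4
    have hcmem : c ∈ closedBall c r := mem_closedBall_self hr.le
    set S := ∑ j, B j with hS
    have hB0 : ∀ j, 0 ≤ B j := fun j => (norm_nonneg _).trans (hB j c hcmem)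
    have hS0 : 0 ≤ S := Finset.sum_nonneg fun j _ => hB0 j
    -- a polynomial
    let R : ℂ[X] := ∑ j : Fin d, C (g j c) * X ^ (j : ℕ)
    have hR : R ≠ 0 := by
      intro h0
      have h5 : R.coeff j₀ = g j₀ c := by
        simp only [R, finsetSum_coeff, coeff_C_mul, coeff_X_pow]
        rw [Finset.sum_eq_single j₀]
        · simp
        · intro b _ hb
          have : (j₀ : ℕ) ≠ b := fun h => hb (Fin.ext h.symm)
          simp [this]
        · simp
      rw [h0, coeff_zero] at h5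
      exact hj₀ h5.symm
    have hfin : {M : ℕ | R.eval ((M : ℂ) ^ 2) = 0}.Finite := by
      have h6 : ((fun M : ℕ => ((M : ℂ) ^ 2)) ⁻¹' {x | R.IsRoot x}).Finite := by
        refine Set.Finite.preimage ?_ (Polynomial.finite_setOfPred_isRoot hR)
        intro a _ b _ hab
        have h7 : ((a : ℂ)) ^ 2 = (b : ℂ) ^ 2 := hab
        have h8 : a ^ 2 = b ^ 2 := by exact_mod_cast h7
        exact Nat.pow_left_injective (n := 2) (by norm_num) h8
      exact h6
    obtain ⟨M₁, hM₁⟩ := hfin.bddAbove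
    obtain ⟨M₂, hM₂⟩ := exists_nat_gt (2 * S / r ^ (m + 1))
    set M := max (M₁ + 1) (M₂ + 1) with hM
    have hM0 : 0 < M := by omega
    have hMR : R.eval ((M : ℂ) ^ 2) ≠ 0 := by
      intro h0
      have : M ≤ M₁ := hM₁ h0
      omega
    have hM1 : (1 : ℝ) ≤ M := by exact_mod_cast hM0
    have hMbig : 2 * S < r ^ (m + 1) * (M : ℝ) ^ 2 := by
      have h8 : (M₂ : ℝ) ≤ M := by exact_mod_cast (by omega : M₂ ≤ M)
      have h9 : 2 * S / r ^ (m + 1) < (M : ℝ) ^ 2 := by nlinarith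
      rw [div_lt_iff₀ (by positivity)] at h9
      linarith
    let hf : ℂ → ℂ := fun z => (z - c) ^ (m + 1) * ((M : ℂ) ^ 2) ^ d +
      ∑ j, g j z * ((M : ℂ) ^ 2) ^ (j : ℕ)
    have hfc : hf c = R.eval ((M : ℂ) ^ 2) := by
      simp [hf, R, eval_finsetSum]
    have hfne : ∀ z ∈ closedBall c r, hf z ≠ 0 := by
      intro z hz
      by_cases hzc : z = c
      · rw [hzc, hfc]; exact hMR
      · obtain ⟨h10, h11⟩ := (hball' z hz).2 hzc
        have h12 : hf z = (z - c) ^ (m + 1) *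
            (((M : ℂ) ^ 2) ^ d + ∑ j, e j z * ((M : ℂ) ^ 2) ^ (j : ℕ)) := by
          simp only [hf]
          rw [mul_add, Finset.mul_sum]
          congr 1
          exact Finset.sum_congr rfl fun j _ => by rw [← h10 j]; ring
        rw [h12]
        exact mul_ne_zero (pow_ne_zero _ (sub_ne_zero.2 hzc)) (h11 M hM0)
    have hfd : DifferentiableOn ℂ hf (closedBall c r) := by
      intro z hz
      refine DifferentiableAt.differentiableWithinAt ?_
      refine DifferentiableAt.add (by fun_prop) (DifferentiableAt.fun_sum fun j _ => ?_)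
      exact ((hball' z hz).1 j).differentiableAt.mul_const _
    have hd1 : DiffContOnCl ℂ (fun z => (hf z)⁻¹) (ball c r) := by
      refine DifferentiableOn.diffContOnCl ?_
      rw [closure_ball c hr.ne']
      exact hfd.inv hfne
    -- lower bound on the circle
    have hdpos : 0 < d := Fin.pos j₀
    have hsum : ∀ z ∈ closedBall c r, ‖∑ j, g j z * ((M : ℂ) ^ 2) ^ (j : ℕ)‖ ≤
        S * ((M : ℝ) ^ 2) ^ (d - 1) := by
      intro z hz
      rw [hS, Finset.sum_mul]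
      refine (norm_sum_le _ _).trans (Finset.sum_le_sum fun j _ => ?_)
      rw [norm_mul, norm_pow, norm_pow, Complex.norm_natCast]
      refine mul_le_mul (hB j z hz) ?_ (by positivity) (hB0 j)
      exact pow_le_pow_right₀ (by nlinarith) (by omega)
    have hlow : ∀ z ∈ sphere c r, r ^ (m + 1) * ((M : ℝ) ^ 2) ^ d - S * ((M : ℝ) ^ 2) ^ (d - 1) ≤
        ‖hf z‖ := by
      intro z hz
      have hz' : ‖z - c‖ = r := by rwa [mem_sphere, dist_eq_norm] at hz
      have h13 : ‖(z - c) ^ (m + 1) * ((M : ℂ) ^ 2) ^ d‖ = r ^ (m + 1) * ((M : ℝ) ^ 2) ^ d := by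
        rw [norm_mul, norm_pow, hz', norm_pow, norm_pow, Complex.norm_natCast]
      have h14 := hsum z (sphere_subset_closedBall hz)
      have h15 := norm_sub_norm_le ((z - c) ^ (m + 1) * ((M : ℂ) ^ 2) ^ d)
        (-∑ j, g j z * ((M : ℂ) ^ 2) ^ (j : ℕ))
      rw [norm_neg, sub_neg_eq_add, h13] at h15
      simp only [hf]
      linarith
    have hpw : ((M : ℝ) ^ 2) ^ d = (M : ℝ) ^ 2 * ((M : ℝ) ^ 2) ^ (d - 1) := by
      rw [← pow_succ', Nat.sub_add_cancel hdpos]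
    have hlow' : ∀ z ∈ sphere c r, S * ((M : ℝ) ^ 2) ^ (d - 1) < ‖hf z‖ := by
      intro z hz
      refine lt_of_lt_of_le ?_ (hlow z hz)
      rw [hpw]
      have h16 : 0 < ((M : ℝ) ^ 2) ^ (d - 1) := by positivity
      nlinarith
    have hfr : frontier (ball c r) = sphere c r := frontier_ball c hr.ne'
    have hSpos : 0 ≤ S * ((M : ℝ) ^ 2) ^ (d - 1) := by positivity
    -- compactness: the minimum on the circle
    have hmax : ‖(hf c)⁻¹‖ < ‖(hf c)⁻¹‖ := by
      obtain ⟨w, hw, hwmax⟩ := Complex.exists_mem_frontier_isMaxOn_norm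
        (isBounded_ball) (nonempty_ball.2 hr) hd1
      rw [hfr] at hw
      have h17 : ‖(hf c)⁻¹‖ ≤ ‖(hf w)⁻¹‖ := hwmax (subset_closure (mem_ball_self hr))
      have h18 : ‖(hf w)⁻¹‖ < ‖(hf c)⁻¹‖ := by
        rw [norm_inv, norm_inv]
        have h19 : 0 < ‖hf c‖ := norm_pos_iff.2 (hfne c hcmem)
        refine inv_strictAnti₀ h19 ?_
        refine lt_of_le_of_lt ?_ (hlow' w hw)
        have h20 := hsum c hcmem
        simp only [hf, sub_self, zero_pow (Nat.succ_ne_zero m), zero_mul, zero_add]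
        exact h20
      exact lt_of_le_of_lt h17 h18
    exact lt_irrefl _ hmax
  intro j
  have h1 : ((1 : ℕ) : ℕ∞) ≤ analyticOrderAt (g j) c := by
    have h2 := (hg1 j).analyticOrderAt_ne_zero.2 (hzero j)
    exact_mod_cast Order.one_le_iff_ne_zero.2 h2
  obtain ⟨g', hg', hg''⟩ := (natCast_le_analyticOrderAt (hg1 j)).1 h1
  refine ⟨g', hg', ?_⟩
  filter_upwards [hg2 j, eventually_nhdsWithin_of_eventually_nhds hg'', self_mem_nhdsWithin]
    with z hz1 hz2 hz3
  have hne : z - c ≠ 0 := sub_ne_zero.2 hz3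
  apply mul_left_cancel₀ hne
  rw [hz2, pow_one, smul_eq_mul] at hz1
  rw [← hz1]
  ring

/-- no poles -/
theorem remov {d : ℕ} (c : ℂ) (e : Fin d → ℂ → ℂ) (m : ℕ) (h : Ext c e m)
    (hom : ∀ᶠ z in 𝓝[≠] c, ∀ M : ℕ, 0 < M →
      ((M : ℂ) ^ 2) ^ d + ∑ j, e j z * ((M : ℂ) ^ 2) ^ (j : ℕ) ≠ 0) (j : Fin d) :
    ∃ g : ℂ → ℂ, AnalyticAt ℂ g c ∧ ∀ᶠ z in 𝓝[≠] c, e j z = g z := by
  have h0 : Ext c e 0 := by
    induction m with
    | zero => exact h
    | succ m ih => exact ih (step c e m h hom)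
  obtain ⟨g, hg1, hg2⟩ := h0 j
  exact ⟨g, hg1, by simpa using hg2⟩

end Pool.Agent.Y119.NW
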