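import Mathlib

/-!
# Coefficients of products of linear factors
-/

set_option autoImplicit false

open Filter Polynomial
open scoped Topology

namespace Pool.Agent.Y119.NW

/-- the polynomial with given roots -/
noncomputable def pol {d : ℕ} (f : Fin d → ℂ) : ℂ[X] := ∏ i, (X - C (f i))

lemma pol_monic {d : ℕ} (f : Fin d → ℂ) : (pol f).Monic := monic_prod_X_sub_C _ _

lemma pol_natDegree {d : ℕ} (f : Fin d → ℂ) : (pol f).natDegree = d := by
  unfold pol
  rw [natDegree_prod_of_monic _ _ fun i _ => monic_X_sub_C _]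
  simp

lemma pol_perm {d : ℕ} (f : Fin d → ℂ) (e : Equiv.Perm (Fin d)) :
    pol (fun i => f (e i)) = pol f := by
  unfold pol
  exact Equiv.prod_comp e fun i => X - C (f i)

lemma pol_eval {d : ℕ} (f : Fin d → ℂ) (x : ℂ) :
    x ^ d + ∑ j : Fin d, (pol f).coeff j * x ^ (j : ℕ) = ∏ i, (x - f i) := by
  have h1 : (pol f).eval x = ∏ i, (x - f i) := by
    unfold pol
    rw [eval_prod]
    simp
  rw [← h1, eval_eq_sum_range, pol_natDegree, Finset.sum_range_succ]
  have h2 : (pol f).coeff d = 1 := by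
    have := (pol_monic f).coeff_natDegree
    rwa [pol_natDegree] at this
  rw [h2, one_mul, add_comm, Finset.sum_range fun j => (pol f).coeff j * x ^ j]

lemma pol_scale {d : ℕ} (f : Fin d → ℂ) {a : ℂ} (ha : a ≠ 0) {j : ℕ} (hj : j ≤ d) :
    (pol fun i => a * f i).coeff j = a ^ (d - j) * (pol f).coeff j := by
  have h1 : (pol fun i => a * f i).comp (C a * X) = C (a ^ d) * pol f := by
    have h0 : (C a : ℂ[X]) ^ d = ∏ _i : Fin d, C a := by simp
    unfold pol
    rw [prod_comp, C_pow, h0, ← Finset.prod_mul_distrib]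
    refine Finset.prod_congr rfl fun i _ => ?_
    simp only [C_mul, sub_comp, mul_comp, X_comp, C_comp]
    ring
  have h2 := congrArg (fun p => p.coeff j) h1
  simp only [comp_C_mul_X_coeff, coeff_C_mul] at h2
  have h3 : a ^ d = a ^ (d - j) * a ^ j := by rw [← pow_add, Nat.sub_add_cancel hj]
  rw [h3] at h2
  have h4 : a ^ j ≠ 0 := pow_ne_zero _ ha
  apply mul_right_cancel₀ h4
  rw [h2]
  ring

lemma prod_analytic {d : ℕ} (s : Finset (Fin d)) (f : Fin d → ℂ → ℂ) {c : ℂ}
    (hf : ∀ i, AnalyticAt ℂ (f i) c) (j : ℕ) :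
    AnalyticAt ℂ (fun z => (∏ i ∈ s, (X - C (f i z))).coeff j) c := by
  classical
  induction s using Finset.induction_on generalizing j with
  | empty => simp only [Finset.prod_empty]; exact analyticAt_const
  | insert i s hi ih =>
    have h1 : (fun z => (∏ i ∈ insert i s, (X - C (f i z))).coeff j) = fun z =>
        (if j = 0 then 0 else (∏ i ∈ s, (X - C (f i z))).coeff (j - 1)) -
          f i z * (∏ i ∈ s, (X - C (f i z))).coeff j := by
      funext z
      rw [Finset.prod_insert hi, sub_mul, coeff_sub, coeff_C_mul]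
      congr 1
      cases j with
      | zero => simp
      | succ j => simp [coeff_X_mul]
    rw [h1]
    refine AnalyticAt.sub ?_ ((hf i).mul (ih j))
    by_cases hj : j = 0
    · simp only [hj, if_true]; exact analyticAt_const
    · simp only [hj, if_false]; exact ih (j - 1)

lemma pol_analytic {d : ℕ} (f : Fin d → ℂ → ℂ) {c : ℂ} (hf : ∀ i, AnalyticAt ℂ (f i) c) (j : ℕ) :
    AnalyticAt ℂ (fun z => (pol fun i => f i z).coeff j) c :=
  prod_analytic Finset.univ f hf j

lemma prod_bound {d : ℕ} (s : Finset (Fin d)) (f : Fin d → ℂ) {R : ℝ} (hR : 0 ≤ R)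
    (hf : ∀ i, ‖f i‖ ≤ R) (j : ℕ) : ‖(∏ i ∈ s, (X - C (f i))).coeff j‖ ≤ (1 + R) ^ s.card := by
  classical
  induction s using Finset.induction_on generalizing j with
  | empty =>
    simp only [Finset.prod_empty, Finset.card_empty, pow_zero, coeff_one]
    split_ifs <;> simp
  | insert i s hi ih =>
    rw [Finset.prod_insert hi, sub_mul, coeff_sub, coeff_C_mul, Finset.card_insert_of_notMem hi,
      pow_succ]
    have h1 : ‖(X * ∏ i ∈ s, (X - C (f i))).coeff j‖ ≤ (1 + R) ^ s.card := by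
      cases j with
      | zero => simp only [mul_coeff_zero, coeff_X_zero, zero_mul, norm_zero]; positivity
      | succ j => rw [coeff_X_mul]; exact ih j
    have h2 : ‖f i * (∏ i ∈ s, (X - C (f i))).coeff j‖ ≤ R * (1 + R) ^ s.card := by
      rw [norm_mul]
      exact mul_le_mul (hf i) (ih j) (norm_nonneg _) hR
    refine (norm_sub_le _ _).trans ?_
    linarith

lemma pol_bound {d : ℕ} (f : Fin d → ℂ) {R : ℝ} (hR : 0 ≤ R)
    (hf : ∀ i, ‖f i‖ ≤ R) (j : ℕ) : ‖(pol f).coeff j‖ ≤ (1 + R) ^ d := by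
  have := prod_bound Finset.univ f hR hf j
  rwa [Finset.card_fin] at this

/-- a function of moderate growth -/
lemma ext_of_bound {f : ℂ → ℂ} {c : ℂ} (hd : ∀ᶠ z in 𝓝[≠] c, DifferentiableAt ℂ f z) {B : ℝ}
    {m : ℕ} (hB : ∀ᶠ z in 𝓝[≠] c, ‖(z - c) ^ m * f z‖ ≤ B) :
    ∃ g : ℂ → ℂ, AnalyticAt ℂ g c ∧ ∀ᶠ z in 𝓝[≠] c, (z - c) ^ (m + 1) * f z = g z := by
  refine ⟨fun z => (z - c) ^ (m + 1) * f z, ?_, Eventually.of_forall fun z => rfl⟩
  apply Complex.analyticAt_of_differentiable_on_punctured_nhds_of_continuousAt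
  · filter_upwards [hd] with z hz
    exact DifferentiableAt.mul (by fun_prop) hz
  · rw [continuousAt_iff_punctured_nhds]
    simp only [sub_self, zero_pow (Nat.succ_ne_zero m), zero_mul]
    have h1 : Tendsto (fun z => ‖z - c‖ * B) (𝓝[≠] c) (𝓝 0) := by
      have h2 : Tendsto (fun z : ℂ => ‖z - c‖ * B) (𝓝 c) (𝓝 (‖c - c‖ * B)) :=
        Continuous.tendsto (by fun_prop) c
      rw [sub_self, norm_zero, zero_mul] at h2
      exact h2.mono_left nhdsWithin_le_nhds
    refine squeeze_zero_norm' ?_ h1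
    filter_upwards [hB] with z hz
    rw [pow_succ', mul_assoc, norm_mul]
    exact mul_le_mul_of_nonneg_left hz (norm_nonneg _)

end Pool.Agent.Y119.NW
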