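import Pool.Agent.Y685.Stm
import Pool.Agent.Y119.NW.Rem
import Pool.Agent.Y119.NW.Sym

/-!
# Multivalued modular forms of negative weight vanish
-/

set_option autoImplicit false

open Filter Polynomial UpperHalfPlane Function
open scoped Topology MatrixGroups ModularForm Manifold

namespace Pool.Agent.Y119.NW

lemma ev_coe {τ : ℍ} {P : ℂ → Prop} :
    (∀ᶠ z in 𝓝 (τ : ℂ), P z) ↔ ∀ᶠ t : ℍ in 𝓝 τ, P (t : ℂ) := by
  rw [← isOpenEmbedding_coe.map_nhds_eq τ, eventually_map]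

lemma ev_coe_ne {τ : ℍ} {P : ℂ → Prop} :
    (∀ᶠ z in 𝓝[≠] (τ : ℂ), P z) ↔ ∀ᶠ t : ℍ in 𝓝[≠] τ, P (t : ℂ) := by
  rw [eventually_nhdsWithin_iff, eventually_nhdsWithin_iff, ev_coe]
  refine eventually_congr (Eventually.of_forall fun t => ?_)
  simp only [Set.mem_compl_iff, Set.mem_singleton_iff, UpperHalfPlane.coe_inj]

instance neBot_ne (τ : ℍ) : NeBot (𝓝[≠] τ) := by
  rw [neBot_iff]
  intro h
  have h1 : ∀ᶠ t : ℍ in 𝓝[≠] τ, False := by rw [h]; exact eventually_bot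
  have h2 : ∀ᶠ z in 𝓝[≠] (τ : ℂ), False := ev_coe_ne.2 h1
  exact h2.exists.elim fun _ h => h

/-- the coefficients -/
noncomputable def cf {d : ℕ} (F : ℍ → Fin d → ℂ) (j : ℕ) (τ : ℍ) : ℂ := (pol (F τ)).coeff j

theorem cf_an {d : ℕ} {X : Set ℍ} {F : ℍ → Fin d → ℂ}
    (hloc : ∀ τ₁ : ℍ, τ₁ ∉ X → ∃ φ : Fin d → ℂ → ℂ, (∀ i, AnalyticAt ℂ (φ i) (τ₁ : ℂ)) ∧
      ∀ᶠ t : ℍ in 𝓝 τ₁, ∃ e : Equiv.Perm (Fin d), ∀ i, F t (e i) = φ i t ^ 2)
    {τ₁ : ℍ} (h₁ : τ₁ ∉ X) (j : ℕ) :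
    AnalyticAt ℂ (fun z => cf F j (ofComplex z)) (τ₁ : ℂ) := by
  obtain ⟨φ, hφ, hev⟩ := hloc τ₁ h₁
  have h2 : AnalyticAt ℂ (fun z => (pol fun i => φ i z ^ 2).coeff j) (τ₁ : ℂ) :=
    pol_analytic (fun i z => φ i z ^ 2) (fun i => (hφ i).pow 2) j
  refine h2.congr (ev_coe.2 ?_)
  filter_upwards [hev] with t ht
  obtain ⟨e, he⟩ := ht
  rw [ofComplex_apply]
  unfold cf
  rw [← pol_perm (F t) e]
  congr 2
  funext i
  rw [he i]

theorem cf_ext {d : ℕ} {X : Set ℍ} {F : ℍ → Fin d → ℂ}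
    (hdisc : ∀ τ : ℍ, ∀ᶠ t in 𝓝[≠] τ, t ∉ X)
    (hloc : ∀ τ₁ : ℍ, τ₁ ∉ X → ∃ φ : Fin d → ℂ → ℂ, (∀ i, AnalyticAt ℂ (φ i) (τ₁ : ℂ)) ∧
      ∀ᶠ t : ℍ in 𝓝 τ₁, ∃ e : Equiv.Perm (Fin d), ∀ i, F t (e i) = φ i t ^ 2)
    (hgr : ∀ τ₁ ∈ X, ∃ (C : ℝ) (m : ℕ), ∀ᶠ t : ℍ in 𝓝[≠] τ₁, ∀ i,
      ‖F t i‖ ≤ C * ‖(t : ℂ) - τ₁‖ ^ (-(m : ℤ)))
    (hom : ∀ τ : ℍ, τ ∉ X → ∀ i, ∀ M : ℕ, 0 < M → F τ i ≠ (M : ℂ) ^ 2) (τ₁ : ℍ) (j : Fin d) :
    ∃ g : ℂ → ℂ, AnalyticAt ℂ g (τ₁ : ℂ) ∧
      ∀ᶠ z in 𝓝[≠] (τ₁ : ℂ), cf F j (ofComplex z) = g z := by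
  by_cases h₁ : τ₁ ∉ X
  · exact ⟨_, cf_an hloc h₁ j, Eventually.of_forall fun z => rfl⟩
  push Not at h₁
  obtain ⟨C, m, hCm⟩ := hgr τ₁ h₁
  refine remov (τ₁ : ℂ) (fun (j : Fin d) z => cf F j (ofComplex z)) (m * d + 1) ?_ ?_ j
  · intro j
    refine ext_of_bound (B := (1 + |C|) ^ d) ?_ ?_
    · rw [ev_coe_ne]
      filter_upwards [hdisc τ₁] with t ht
      exact (cf_an hloc ht j).differentiableAt
    · rw [ev_coe_ne]
      have h3 : ∀ᶠ t : ℍ in 𝓝[≠] τ₁, ‖(t : ℂ) - τ₁‖ ≤ 1 := by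
        refine (ev_coe_ne (P := fun z => ‖z - (τ₁ : ℂ)‖ ≤ 1)).1
          (eventually_nhdsWithin_of_eventually_nhds ?_)
        filter_upwards [Metric.closedBall_mem_nhds (τ₁ : ℂ) one_pos] with z hz
        rwa [Metric.mem_closedBall, dist_eq_norm] at hz
      filter_upwards [hCm, h3, self_mem_nhdsWithin] with t ht1 ht2 ht3
      have hne : (t : ℂ) - τ₁ ≠ 0 := by
        rw [sub_ne_zero]
        intro h
        exact ht3 (UpperHalfPlane.coe_inj.1 h)
      have hpos : 0 < ‖(t : ℂ) - τ₁‖ := norm_pos_iff.2 hne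
      rw [ofComplex_apply]
      set x := ‖(t : ℂ) - τ₁‖ with hx
      have h4 : ∀ i, ‖F t i‖ ≤ |C| * (x ^ m)⁻¹ := by
        intro i
        refine (ht1 i).trans ?_
        rw [zpow_neg, zpow_natCast]
        exact mul_le_mul_of_nonneg_right (le_abs_self C) (by positivity)
      have h5 := pol_bound (F t) (by positivity) h4 (j : ℕ)
      rw [norm_mul, norm_pow, ← hx, pow_mul]
      have h6 : (x ^ m) * (1 + |C| * (x ^ m)⁻¹) ≤ 1 + |C| := by
        have h7 : x ^ m ≤ 1 := pow_le_one₀ hpos.le ht2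
        have h8 : x ^ m * (1 + |C| * (x ^ m)⁻¹) = x ^ m + |C| := by
          field_simp
        rw [h8]; linarith
      calc (x ^ m) ^ d * ‖cf F (j : ℕ) t‖ ≤ (x ^ m) ^ d * (1 + |C| * (x ^ m)⁻¹) ^ d :=
            mul_le_mul_of_nonneg_left h5 (by positivity)
        _ = ((x ^ m) * (1 + |C| * (x ^ m)⁻¹)) ^ d := by rw [mul_pow]
        _ ≤ (1 + |C|) ^ d := pow_le_pow_left₀ (by positivity) h6 d
  · rw [ev_coe_ne]
    filter_upwards [hdisc τ₁] with t ht M hM
    simp only [ofComplex_apply, cf]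
    rw [pol_eval (F t) ((M : ℂ) ^ 2), Finset.prod_ne_zero_iff]
    intro i _
    exact sub_ne_zero.2 (hom t ht i M hM).symm

theorem task_E2 : Pool.Agent.Y685.S_E2 := by
  intro d X F hclosed hdisc hstab hT hloc hwt hgr hcusp hom
  classical
  -- the extended coefficients
  choose G hG1 hG2 using fun (j : Fin d) (τ₁ : ℍ) => cf_ext hdisc hloc hgr hom τ₁ j
  let E : Fin d → ℍ → ℂ := fun j τ => G j τ τ
  have hEoff : ∀ j, ∀ τ : ℍ, τ ∉ X → E j τ = cf F j τ := by
    intro j τ hτ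
    have h1 : Tendsto (G j τ) (𝓝[≠] (τ : ℂ)) (𝓝 (G j τ τ)) :=
      (hG1 j τ).continuousAt.tendsto.mono_left nhdsWithin_le_nhds
    have h2 : Tendsto (fun z => cf F j (ofComplex z)) (𝓝[≠] (τ : ℂ)) (𝓝 (cf F j (ofComplex τ))) :=
      (cf_an hloc hτ j).continuousAt.tendsto.mono_left nhdsWithin_le_nhds
    rw [ofComplex_apply] at h2
    exact tendsto_nhds_unique h1 (h2.congr' (hG2 j τ))
  have hEan : ∀ j, ∀ τ : ℍ, AnalyticAt ℂ (fun z => E j (ofComplex z)) (τ : ℂ) := by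
    intro j τ
    refine (hG1 j τ).congr ?_
    have h1 : ∀ᶠ z in 𝓝[≠] (τ : ℂ), G j τ z = E j (ofComplex z) := by
      rw [ev_coe_ne]
      filter_upwards [hdisc τ, ev_coe_ne.1 (hG2 j τ)] with t ht1 ht2
      rw [← ht2, ofComplex_apply, hEoff j t ht1]
    rw [eventually_nhdsWithin_iff] at h1
    filter_upwards [h1] with z hz
    by_cases hzτ : z = τ
    · subst hzτ
      rw [ofComplex_apply]
    · exact hz hzτ
  have hEcont : ∀ j, Continuous (E j) := by
    intro j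
    rw [continuous_iff_continuousAt]
    intro τ
    have h1 : ContinuousAt (fun z => E j (ofComplex z)) (τ : ℂ) := (hEan j τ).continuousAt
    have h2 : ContinuousAt (fun t : ℍ => E j (ofComplex (t : ℂ))) τ :=
      ContinuousAt.comp (g := fun z => E j (ofComplex z)) (f := fun t : ℍ => (t : ℂ)) h1
        UpperHalfPlane.continuous_coe.continuousAt
    simpa only [ofComplex_apply] using h2
  -- weight
  have hXc : ∀ (γ : SL(2, ℤ)) (τ : ℍ), τ ∉ X → γ • τ ∉ X := by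
    intro γ τ hτ h
    apply hτ
    have := hstab γ⁻¹ _ h
    rwa [inv_smul_smul] at this
  have hwoff : ∀ (j : Fin d) (γ : SL(2, ℤ)) (τ : ℍ), τ ∉ X →
      E j (γ • τ) = ((denom γ τ) ^ (-2 : ℤ)) ^ (d - (j : ℕ)) * E j τ := by
    intro j γ τ hτ
    obtain ⟨e, he⟩ := hwt γ τ hτ
    rw [hEoff j τ hτ, hEoff j _ (hXc γ τ hτ)]
    unfold cf
    rw [← pol_perm (F (γ • τ)) e, ← pol_scale _ (zpow_ne_zero _ (denom_ne_zero _ τ)) j.2.le]
    congr 2
    funext i
    exact he i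
  have hw : ∀ (j : Fin d) (γ : SL(2, ℤ)) (τ : ℍ),
      E j (γ • τ) = ((denom γ τ) ^ (-2 : ℤ)) ^ (d - (j : ℕ)) * E j τ := by
    intro j γ τ
    have hc1 : ContinuousAt (fun t : ℍ => E j (γ • t)) τ :=
      (hEcont j).continuousAt.comp
        (continuous_const_smul (γ : GL (Fin 2) ℝ) : Continuous fun t : ℍ => _).continuousAt
    have hc0 : Continuous fun t : ℍ => denom γ t := by
      unfold denom
      exact (continuous_const.mul UpperHalfPlane.continuous_coe).add continuous_const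
    have hc2 : ContinuousAt (fun t : ℍ => ((denom γ t) ^ (-2 : ℤ)) ^ (d - (j : ℕ)) * E j t) τ := by
      refine ContinuousAt.mul ?_ (hEcont j).continuousAt
      refine ContinuousAt.pow ?_ _
      exact hc0.continuousAt.zpow₀ _ (Or.inl (denom_ne_zero _ τ))
    have h3 := hc1.tendsto.mono_left (nhdsWithin_le_nhds (s := {τ}ᶜ))
    have h4 := hc2.tendsto.mono_left (nhdsWithin_le_nhds (s := {τ}ᶜ))
    refine tendsto_nhds_unique h3 (h4.congr' ?_)
    filter_upwards [hdisc τ] with t ht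
    exact (hwoff j γ t ht).symm
  -- periodicity
  let k : Fin d → ℤ := fun j => -2 * ((d - (j : ℕ) : ℕ) : ℤ)
  have hslash : ∀ (j : Fin d) (γ : SL(2, ℤ)), (E j) ∣[k j] γ = E j := by
    intro j γ
    funext τ
    rw [ModularForm.SL_slash_apply, hw j γ τ]
    have hne : denom γ τ ≠ 0 := denom_ne_zero _ τ
    have h1 : ((denom γ τ) ^ (-2 : ℤ)) ^ (d - (j : ℕ)) * denom γ τ ^ (-(k j)) = 1 := by
      rw [← zpow_natCast, ← zpow_mul, ← zpow_add₀ hne]
      simp [k]
    calc ((denom γ τ) ^ (-2 : ℤ)) ^ (d - (j : ℕ)) * E j τ * denom γ τ ^ (-(k j)) =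
          (((denom γ τ) ^ (-2 : ℤ)) ^ (d - (j : ℕ)) * denom γ τ ^ (-(k j))) * E j τ := by ring
      _ = E j τ := by rw [h1, one_mul]
  let SI : ∀ j : Fin d, SlashInvariantForm 𝒮ℒ (k j) := fun j =>
    { toFun := E j
      slash_action_eq' := by
        rintro _ ⟨γ, rfl⟩
        exact hslash j γ }
  have hper : ∀ j, Periodic (E j ∘ ofComplex) ((1 : ℝ) : ℂ) := fun j =>
    SlashInvariantFormClass.periodic_comp_ofComplex (SI j) one_mem_strictPeriods_SL
  have hholo : ∀ j, MDiff (E j) := by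
    intro j
    rw [UpperHalfPlane.mdifferentiable_iff]
    intro z hz
    exact (hEan j ⟨z, hz⟩).differentiableAt.differentiableWithinAt
  -- growth at the cusp
  obtain ⟨T, hT⟩ := hT
  obtain ⟨C, T', hC⟩ := hcusp
  let e : Fin d → ℂ → ℂ := fun j => Function.Periodic.cuspFunction 1 (E j ∘ ofComplex)
  obtain ⟨m, hm⟩ := exists_nat_gt (|C| / (2 * Real.pi))
  have hsmall : ∀ᶠ q in 𝓝[≠] (0 : ℂ), ∃ τ : ℍ, τ ∉ X ∧ T' ≤ τ.im ∧ ‖q‖ = Real.exp (-2 * Real.pi * τ.im) ∧
      ∀ j, e j q = E j τ := by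
    have h1 : ∀ᶠ z in comap Complex.im atTop, max (max T T') 0 < z.im :=
      tendsto_comap.eventually (eventually_gt_atTop _)
    filter_upwards [(Function.Periodic.invQParam_tendsto one_pos).eventually h1,
      self_mem_nhdsWithin] with q hq1 hq2
    have h2 : 0 < (Function.Periodic.invQParam 1 q).im := (le_max_right _ _).trans_lt hq1
    have h3 : max T T' < (Function.Periodic.invQParam 1 q).im := (le_max_left _ _).trans_lt hq1
    refine ⟨⟨_, h2⟩, fun h => ?_, ?_, ?_, fun j => ?_⟩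
    · exact absurd (hT _ h) (not_le.2 ((le_max_left _ _).trans_lt h3))
    · exact ((le_max_right _ _).trans_lt h3).le
    · have h4 := Function.Periodic.norm_qParam 1 (Function.Periodic.invQParam 1 q)
      rw [Function.Periodic.qParam_right_inv one_ne_zero hq2, div_one] at h4
      exact h4
    · have h5 := Function.Periodic.cuspFunction_eq_of_nonzero 1 (E j ∘ ofComplex) hq2
      simp only [e]
      rw [h5, Function.comp_apply, ofComplex_apply_of_im_pos h2]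
  have hbd : ∀ j, IsBoundedAtImInfty (E j) := by
    intro j
    obtain ⟨g, hg1, hg2⟩ := remov (0 : ℂ) e (m * d + 1) (by
      intro j
      refine ext_of_bound (B := 2 ^ d) ?_ ?_
      · exact Function.Periodic.eventually_differentiableAt_cuspFunction_nhds_ne_zero one_pos (hper j)
          (eventually_of_mem (preimage_mem_comap (Ioi_mem_atTop 0))
            fun z hz => (hEan j ⟨z, hz⟩).differentiableAt)
      · filter_upwards [hsmall] with q hq
        obtain ⟨τ, hτX, hτT, hτq, hτe⟩ := hq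
        rw [sub_zero, hτe j, hEoff j τ hτX, norm_mul, norm_pow, hτq, pow_mul]
        set y := Real.exp (-2 * Real.pi * τ.im) with hy
        have hy0 : 0 < y := Real.exp_pos _
        have hy1 : y ≤ 1 := by
          rw [hy, Real.exp_le_one_iff]
          have := mul_pos Real.pi_pos τ.im_pos
          linarith
        have h5 := pol_bound (F τ) (Real.exp_pos _).le (hC τ hτT) (j : ℕ)
        have h6 : y ^ m * (1 + Real.exp (C * τ.im)) ≤ 2 := by
          have h7 : y ^ m ≤ 1 := pow_le_one₀ hy0.le hy1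
          have h8 : y ^ m * Real.exp (C * τ.im) ≤ 1 := by
            rw [hy, ← Real.exp_nat_mul, ← Real.exp_add, Real.exp_le_one_iff]
            have h9 : |C| < m * (2 * Real.pi) := by
              rwa [div_lt_iff₀ (by positivity)] at hm
            have h10 : C * τ.im ≤ m * (2 * Real.pi) * τ.im :=
              mul_le_mul_of_nonneg_right ((le_abs_self C).trans h9.le) τ.im_pos.le
            linarith
          rw [mul_add, mul_one]
          linarith
        calc (y ^ m) ^ d * ‖cf F (j : ℕ) τ‖ ≤ (y ^ m) ^ d * (1 + Real.exp (C * τ.im)) ^ d :=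
              mul_le_mul_of_nonneg_left h5 (by positivity)
          _ = (y ^ m * (1 + Real.exp (C * τ.im))) ^ d := by rw [mul_pow]
          _ ≤ 2 ^ d := pow_le_pow_left₀ (by positivity) h6 d) (by
      filter_upwards [hsmall] with q hq M hM
      obtain ⟨τ, hτX, hτT, hτq, hτe⟩ := hq
      have h1 : ∑ j, e j q * ((M : ℂ) ^ 2) ^ (j : ℕ) =
          ∑ j : Fin d, (pol (F τ)).coeff j * ((M : ℂ) ^ 2) ^ (j : ℕ) :=
        Finset.sum_congr rfl fun j _ => by rw [hτe j, hEoff j τ hτX]; rfl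
      rw [h1, pol_eval (F τ) ((M : ℂ) ^ 2), Finset.prod_ne_zero_iff]
      intro i _
      exact sub_ne_zero.2 (hom τ hτX i M hM).symm) j
    have hg3 : ∀ᶠ q in 𝓝[≠] (0 : ℂ), ‖e j q‖ ≤ ‖g 0‖ + 1 := by
      have h1 : ∀ᶠ q in 𝓝 (0 : ℂ), ‖g q‖ < ‖g 0‖ + 1 :=
        hg1.continuousAt.norm.eventually_lt continuousAt_const (lt_add_one _)
      filter_upwards [hg2, eventually_nhdsWithin_of_eventually_nhds h1] with q hq1 hq2
      rw [hq1]; exact hq2.le
    have hg4 : ∀ᶠ τ : ℍ in atImInfty, ‖E j τ‖ ≤ ‖g 0‖ + 1 := by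
      have h1 := tendsto_coe_atImInfty.eventually
        ((Function.Periodic.qParam_tendsto one_pos).eventually hg3)
      filter_upwards [h1] with τ hτ
      have h2 := Function.Periodic.eq_cuspFunction one_ne_zero (hper j) (τ : ℂ)
      simp only [e] at hτ
      rw [h2, Function.comp_apply, ofComplex_apply] at hτ
      exact hτ
    refine Asymptotics.IsBigO.of_bound (‖g 0‖ + 1) ?_
    filter_upwards [hg4] with τ hτ
    simpa using hτ
  -- the modular forms vanish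
  have hzero : ∀ j, E j = 0 := by
    intro j
    let f : ModularForm 𝒮ℒ (k j) :=
      { SI j with
        holo' := hholo j
        bdd_at_cusps' := by
          intro c hc
          rw [OnePoint.isBoundedAt_iff_forall_SL2Z hc]
          intro γ _
          have h1 : (E j) ∣[k j] γ = E j := hslash j γ
          show IsBoundedAtImInfty ((E j) ∣[k j] γ)
          rw [h1]
          exact hbd j }
    have hk : k j < 0 := by
      have : 0 < d - (j : ℕ) := Nat.sub_pos_of_lt j.2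
      simp only [k]
      omega
    exact ModularFormClass.levelOne_neg_weight_eq_zero hk f
  intro τ hτ i
  have h1 : ∀ j : Fin d, (pol (F τ)).coeff j = 0 := fun j => by
    have h2 := hEoff j τ hτ
    rw [hzero j] at h2
    exact h2.symm
  have h2 := pol_eval (F τ) (F τ i)
  rw [Finset.sum_eq_zero (fun j _ => by rw [h1 j, zero_mul]), add_zero,
    Finset.prod_eq_zero (Finset.mem_univ i) (sub_self _)] at h2
  exact (pow_eq_zero_iff (Fin.pos i).ne').1 h2

end Pool.Agent.Y119.NW
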